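import Mathlib

set_option autoImplicit false

/-!
Algebraic preparations: degree bounds for substitutions, divisibility by a variable, and the
explicit form of polynomials of total degree at most two in four variables.
-/

namespace Pool.Agent.U234.Amal

open MvPolynomial

/-- Substituting polynomials of degree at most one does not raise the total degree. -/
lemma totalDegree_aeval_le {σ τ : Type*} (g : σ → MvPolynomial τ ℝ)
    (hg : ∀ i, (g i).totalDegree ≤ 1) (f : MvPolynomial σ ℝ) :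
    (aeval g f).totalDegree ≤ f.totalDegree := by
  rw [aeval_def, eval₂_eq]
  refine totalDegree_finsetSum_le fun d hd => ?_
  refine (totalDegree_mul _ _).trans ?_
  have h1 : (algebraMap ℝ (MvPolynomial τ ℝ) (coeff d f)).totalDegree = 0 := totalDegree_C _
  rw [h1, zero_add]
  refine (totalDegree_finsetProd _ _).trans ?_
  have h2 : ∑ i ∈ d.support, ((g i) ^ d i).totalDegree ≤ ∑ i ∈ d.support, d i := by
    refine Finset.sum_le_sum fun i _ => ?_
    refine (totalDegree_pow _ _).trans ?_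
    calc d i * (g i).totalDegree ≤ d i * 1 := Nat.mul_le_mul_left _ (hg i)
      _ = d i := mul_one _
  exact h2.trans (le_totalDegree hd)

/-- A polynomial vanishing on the hyperplane `x i = 0` is divisible by `X i`. -/
lemma X_dvd_of_vanish (f : MvPolynomial (Fin 4) ℝ) (i : Fin 4)
    (h : ∀ x : Fin 4 → ℝ, x i = 0 → eval x f = 0) : X i ∣ f := by
  rw [X_dvd_iff_modMonomial_eq_zero]
  set b := f.modMonomial (Finsupp.single i 1) with hb
  have hsupp : ∀ d ∈ b.support, d i = 0 := by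
    intro d hd
    by_contra hne
    rw [mem_support_iff] at hd
    apply hd
    rw [hb]
    apply coeff_modMonomial_of_le
    rw [Finsupp.single_le_iff]
    omega
  apply MvPolynomial.funext
  intro x
  have h1 : eval x b = eval (Function.update x i 0) b := by
    rw [eval_eq', eval_eq']
    refine Finset.sum_congr rfl fun d hd => ?_
    congr 1
    refine Finset.prod_congr rfl fun j _ => ?_
    by_cases hji : j = i
    · subst hji
      rw [hsupp d hd, pow_zero, pow_zero]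
    · rw [Function.update_of_ne hji]
  have h2 := divMonomial_add_modMonomial_single f i
  have h3 : eval (Function.update x i 0) f = eval (Function.update x i 0) b := by
    conv_lhs => rw [← h2]
    rw [map_add, map_mul, eval_X, Function.update_self, zero_mul, zero_add]
  rw [h1, ← h3, h _ (Function.update_self i 0 x), map_zero]

/-- The interpolation formula for polynomials of degree at most two, as a function of the values
at the points `0`, `± e_i`, `e_i + e_j`. -/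
noncomputable def quad (F : ℝ → ℝ → ℝ → ℝ → ℝ) (x : Fin 4 → ℝ) : ℝ :=
  F 0 0 0 0 + (F 1 0 0 0 - F (-1) 0 0 0) / 2 * x 0 + (F 0 1 0 0 - F 0 (-1) 0 0) / 2 * x 1 +
    (F 0 0 1 0 - F 0 0 (-1) 0) / 2 * x 2 + (F 0 0 0 1 - F 0 0 0 (-1)) / 2 * x 3 +
    ((F 1 0 0 0 + F (-1) 0 0 0) / 2 - F 0 0 0 0) * x 0 ^ 2 +
    (F 1 1 0 0 - F 1 0 0 0 - F 0 1 0 0 + F 0 0 0 0) * (x 0 * x 1) +
    (F 1 0 1 0 - F 1 0 0 0 - F 0 0 1 0 + F 0 0 0 0) * (x 0 * x 2) +
    (F 1 0 0 1 - F 1 0 0 0 - F 0 0 0 1 + F 0 0 0 0) * (x 0 * x 3) +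
    ((F 0 1 0 0 + F 0 (-1) 0 0) / 2 - F 0 0 0 0) * x 1 ^ 2 +
    (F 0 1 1 0 - F 0 1 0 0 - F 0 0 1 0 + F 0 0 0 0) * (x 1 * x 2) +
    (F 0 1 0 1 - F 0 1 0 0 - F 0 0 0 1 + F 0 0 0 0) * (x 1 * x 3) +
    ((F 0 0 1 0 + F 0 0 (-1) 0) / 2 - F 0 0 0 0) * x 2 ^ 2 +
    (F 0 0 1 1 - F 0 0 1 0 - F 0 0 0 1 + F 0 0 0 0) * (x 2 * x 3) +
    ((F 0 0 0 1 + F 0 0 0 (-1)) / 2 - F 0 0 0 0) * x 3 ^ 2

lemma quad_add (F G : ℝ → ℝ → ℝ → ℝ → ℝ) (x : Fin 4 → ℝ) :
    quad (fun a b c d => F a b c d + G a b c d) x = quad F x + quad G x := by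
  unfold quad; ring

lemma quad_monomial (n0 n1 n2 n3 : ℕ) (hn : n0 + n1 + n2 + n3 ≤ 2) (k : ℝ) (x : Fin 4 → ℝ) :
    quad (fun a b c d => k * (a ^ n0 * b ^ n1 * c ^ n2 * d ^ n3)) x =
      k * (x 0 ^ n0 * x 1 ^ n1 * x 2 ^ n2 * x 3 ^ n3) := by
  have h0 : n0 ≤ 2 := by omega
  have h1 : n1 ≤ 2 := by omega
  have h2 : n2 ≤ 2 := by omega
  have h3 : n3 ≤ 2 := by omega
  interval_cases n0 <;> interval_cases n1 <;> interval_cases n2 <;> interval_cases n3 <;>
    first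
      | omega
      | (simp only [quad]; norm_num)

lemma eval_monomial4 (d : Fin 4 →₀ ℕ) (k : ℝ) (x : Fin 4 → ℝ) :
    eval x (monomial d k) = k * (x 0 ^ d 0 * x 1 ^ d 1 * x 2 ^ d 2 * x 3 ^ d 3) := by
  rw [eval_monomial, Finsupp.prod_fintype _ _ (fun i => pow_zero _), Fin.prod_univ_four]

lemma eval_eq_quad (g : MvPolynomial (Fin 4) ℝ) (hg : g.totalDegree ≤ 2) (x : Fin 4 → ℝ) :
    eval x g = quad (fun a b c d => eval ![a, b, c, d] g) x := by
  have key : ∀ s : Finset (Fin 4 →₀ ℕ), (∀ d ∈ s, d 0 + d 1 + d 2 + d 3 ≤ 2) →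
      eval x (∑ d ∈ s, monomial d (coeff d g)) =
        quad (fun a b c e => eval ![a, b, c, e] (∑ d ∈ s, monomial d (coeff d g))) x := by
    intro s
    induction s using Finset.induction_on with
    | empty => intro _; simp [quad]
    | insert d s hds ih =>
      intro hs
      rw [Finset.sum_insert hds]
      simp only [map_add]
      rw [quad_add, ih fun e he => hs e (Finset.mem_insert_of_mem he)]
      congr 1
      rw [eval_monomial4]
      simp only [eval_monomial4]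
      exact (quad_monomial _ _ _ _ (hs d (Finset.mem_insert_self d s)) _ x).symm
  have h := key g.support fun d hd => by
    have h1 := le_totalDegree hd
    have h2 : (d.sum fun _ e => e) = d 0 + d 1 + d 2 + d 3 := by
      rw [Finsupp.sum_fintype _ _ (fun _ => rfl), Fin.sum_univ_four]
    omega
  rw [← as_sum g] at h
  exact h

/-- The explicit form of a polynomial of total degree at most two in four variables. -/
lemma explicit_form (g : MvPolynomial (Fin 4) ℝ) (hg : g.totalDegree ≤ 2) :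
    ∃ c b0 b1 b2 b3 a00 a01 a02 a03 a11 a12 a13 a22 a23 a33 : ℝ,
      g = C c + C b0 * X 0 + C b1 * X 1 + C b2 * X 2 + C b3 * X 3 + C a00 * X 0 ^ 2 +
        C a01 * (X 0 * X 1) + C a02 * (X 0 * X 2) + C a03 * (X 0 * X 3) + C a11 * X 1 ^ 2 +
        C a12 * (X 1 * X 2) + C a13 * (X 1 * X 3) + C a22 * X 2 ^ 2 + C a23 * (X 2 * X 3) +
        C a33 * X 3 ^ 2 := by
  let F : ℝ → ℝ → ℝ → ℝ → ℝ := fun a b c d => eval ![a, b, c, d] g
  refine ⟨F 0 0 0 0, (F 1 0 0 0 - F (-1) 0 0 0) / 2, (F 0 1 0 0 - F 0 (-1) 0 0) / 2,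
    (F 0 0 1 0 - F 0 0 (-1) 0) / 2, (F 0 0 0 1 - F 0 0 0 (-1)) / 2,
    (F 1 0 0 0 + F (-1) 0 0 0) / 2 - F 0 0 0 0,
    F 1 1 0 0 - F 1 0 0 0 - F 0 1 0 0 + F 0 0 0 0,
    F 1 0 1 0 - F 1 0 0 0 - F 0 0 1 0 + F 0 0 0 0,
    F 1 0 0 1 - F 1 0 0 0 - F 0 0 0 1 + F 0 0 0 0,
    (F 0 1 0 0 + F 0 (-1) 0 0) / 2 - F 0 0 0 0,
    F 0 1 1 0 - F 0 1 0 0 - F 0 0 1 0 + F 0 0 0 0,
    F 0 1 0 1 - F 0 1 0 0 - F 0 0 0 1 + F 0 0 0 0,
    (F 0 0 1 0 + F 0 0 (-1) 0) / 2 - F 0 0 0 0,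
    F 0 0 1 1 - F 0 0 1 0 - F 0 0 0 1 + F 0 0 0 0,
    (F 0 0 0 1 + F 0 0 0 (-1)) / 2 - F 0 0 0 0, ?_⟩
  apply MvPolynomial.funext
  intro x
  rw [eval_eq_quad g hg x]
  simp only [map_add, map_mul, map_pow, eval_C, eval_X]
  rfl

end Pool.Agent.U234.Amal
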