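import Mathlib

set_option autoImplicit false

/-!
Real-rooted quartics: the Laguerre inequality, the first-order condition at a double root, and two
leading-coefficient lemmas.
-/

namespace Pool.Agent.U234.Amal

/-- A monic complex quadratic has a root. -/
lemma exists_root2 (b c : ℂ) : ∃ t : ℂ, t ^ 2 + b * t + c = 0 := by
  have hd : (Polynomial.X ^ 2 + Polynomial.C b * Polynomial.X +
    Polynomial.C c).degree = 2 := by compute_degree!
  have h := IsAlgClosed.exists_root _ (by rw [hd]; norm_num)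
  obtain ⟨t, ht⟩ := h
  exact ⟨t, by simpa [Polynomial.IsRoot] using ht⟩

/-- A monic complex cubic has a root. -/
lemma exists_root3 (b c d : ℂ) : ∃ t : ℂ, t ^ 3 + b * t ^ 2 + c * t + d = 0 := by
  have hd : (Polynomial.X ^ 3 + Polynomial.C b * Polynomial.X ^ 2 +
    Polynomial.C c * Polynomial.X + Polynomial.C d).degree = 3 := by compute_degree!
  have h := IsAlgClosed.exists_root _ (by rw [hd]; norm_num)
  obtain ⟨t, ht⟩ := h
  exact ⟨t, by simpa [Polynomial.IsRoot] using ht⟩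

/-- A monic complex quartic has a root. -/
lemma exists_root4 (b c d e : ℂ) : ∃ t : ℂ, t ^ 4 + b * t ^ 3 + c * t ^ 2 + d * t + e = 0 := by
  have hd : (Polynomial.X ^ 4 + Polynomial.C b * Polynomial.X ^ 3 +
    Polynomial.C c * Polynomial.X ^ 2 + Polynomial.C d * Polynomial.X +
    Polynomial.C e).degree = 4 := by compute_degree!
  have h := IsAlgClosed.exists_root _ (by rw [hd]; norm_num)
  obtain ⟨t, ht⟩ := h
  exact ⟨t, by simpa [Polynomial.IsRoot] using ht⟩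

/-- A real monic quartic all of whose complex roots are real is a product of real linear
factors. -/
lemma split4 (c3 c2 c1 c0 : ℝ)
    (h : ∀ t : ℂ, t ^ 4 + c3 * t ^ 3 + c2 * t ^ 2 + c1 * t + c0 = 0 → t.im = 0) :
    ∃ r1 r2 r3 r4 : ℝ, ∀ T : ℝ, T ^ 4 + c3 * T ^ 3 + c2 * T ^ 2 + c1 * T + c0 =
      (T - r1) * (T - r2) * (T - r3) * (T - r4) := by
  obtain ⟨t1, ht1⟩ := exists_root4 (c3 : ℂ) c2 c1 c0
  obtain ⟨r1, rfl⟩ : ∃ r : ℝ, (r : ℂ) = t1 :=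
    ⟨t1.re, Complex.ext rfl (by simpa using (h t1 ht1).symm)⟩
  have e1 : r1 ^ 4 + c3 * r1 ^ 3 + c2 * r1 ^ 2 + c1 * r1 + c0 = 0 := by exact_mod_cast ht1
  -- the cubic cofactor
  set d2 : ℝ := c3 + r1 with hd2
  set d1 : ℝ := c2 + r1 * d2 with hd1
  set d0 : ℝ := c1 + r1 * d1 with hd0
  have e1' : c0 = -(r1 * d0) := by rw [hd0, hd1, hd2]; linarith
  have f1 : ∀ t : ℂ, t ^ 4 + c3 * t ^ 3 + c2 * t ^ 2 + c1 * t + c0 =
      (t - r1) * (t ^ 3 + d2 * t ^ 2 + d1 * t + d0) := by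
    intro t
    have : (c0 : ℂ) = -(r1 * d0) := by exact_mod_cast e1'
    rw [this, hd0, hd1, hd2]
    push_cast
    ring
  have h1 : ∀ t : ℂ, t ^ 3 + d2 * t ^ 2 + d1 * t + d0 = 0 → t.im = 0 := fun t ht =>
    h t (by rw [f1, ht, mul_zero])
  obtain ⟨t2, ht2⟩ := exists_root3 (d2 : ℂ) d1 d0
  obtain ⟨r2, rfl⟩ : ∃ r : ℝ, (r : ℂ) = t2 :=
    ⟨t2.re, Complex.ext rfl (by simpa using (h1 t2 ht2).symm)⟩
  have e2 : r2 ^ 3 + d2 * r2 ^ 2 + d1 * r2 + d0 = 0 := by exact_mod_cast ht2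
  set g1 : ℝ := d2 + r2 with hg1
  set g0 : ℝ := d1 + r2 * g1 with hg0
  have e2' : d0 = -(r2 * g0) := by rw [hg0, hg1]; linarith
  have f2 : ∀ t : ℂ, t ^ 3 + d2 * t ^ 2 + d1 * t + d0 = (t - r2) * (t ^ 2 + g1 * t + g0) := by
    intro t
    have : (d0 : ℂ) = -(r2 * g0) := by exact_mod_cast e2'
    rw [this, hg0, hg1]
    push_cast
    ring
  have h2 : ∀ t : ℂ, t ^ 2 + g1 * t + g0 = 0 → t.im = 0 := fun t ht =>
    h1 t (by rw [f2, ht, mul_zero])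
  obtain ⟨t3, ht3⟩ := exists_root2 (g1 : ℂ) g0
  obtain ⟨r3, rfl⟩ : ∃ r : ℝ, (r : ℂ) = t3 :=
    ⟨t3.re, Complex.ext rfl (by simpa using (h2 t3 ht3).symm)⟩
  have e3 : r3 ^ 2 + g1 * r3 + g0 = 0 := by exact_mod_cast ht3
  refine ⟨r1, r2, r3, -(g1 + r3), fun T => ?_⟩
  have e3' : g0 = -(r3 * (g1 + r3)) := by linarith
  have F1 : T ^ 4 + c3 * T ^ 3 + c2 * T ^ 2 + c1 * T + c0 =
      (T - r1) * (T ^ 3 + d2 * T ^ 2 + d1 * T + d0) := by
    have := f1 T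
    exact_mod_cast this
  have F2 : T ^ 3 + d2 * T ^ 2 + d1 * T + d0 = (T - r2) * (T ^ 2 + g1 * T + g0) := by
    have := f2 T
    exact_mod_cast this
  rw [F1, F2, e3']
  ring

/-- Coefficients of a monic quartic that agrees with a product of linear factors. -/
lemma coeffs4 (c3 c2 c1 c0 r1 r2 r3 r4 : ℝ)
    (h : ∀ T : ℝ, T ^ 4 + c3 * T ^ 3 + c2 * T ^ 2 + c1 * T + c0 =
      (T - r1) * (T - r2) * (T - r3) * (T - r4)) :
    c3 = -(r1 + r2 + r3 + r4) ∧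
      c2 = r1 * r2 + r1 * r3 + r1 * r4 + r2 * r3 + r2 * r4 + r3 * r4 ∧
      c1 = -(r1 * r2 * r3 + r1 * r2 * r4 + r1 * r3 * r4 + r2 * r3 * r4) ∧
      c0 = r1 * r2 * r3 * r4 := by
  have h0 := h 0
  have h1 := h 1
  have h2 := h (-1)
  have h3 := h 2
  refine ⟨?_, ?_, ?_, ?_⟩ <;> linarith

/-- The Laguerre inequality for real-rooted monic quartics. -/
lemma laguerre4 (c3 c2 c1 c0 : ℝ)
    (h : ∀ t : ℂ, t ^ 4 + c3 * t ^ 3 + c2 * t ^ 2 + c1 * t + c0 = 0 → t.im = 0) (T : ℝ) :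
    (T ^ 4 + c3 * T ^ 3 + c2 * T ^ 2 + c1 * T + c0) * (12 * T ^ 2 + 6 * c3 * T + 2 * c2) ≤
      (4 * T ^ 3 + 3 * c3 * T ^ 2 + 2 * c2 * T + c1) ^ 2 := by
  obtain ⟨r1, r2, r3, r4, hr⟩ := split4 c3 c2 c1 c0 h
  obtain ⟨k3, k2, k1, k0⟩ := coeffs4 c3 c2 c1 c0 r1 r2 r3 r4 hr
  have key : (4 * T ^ 3 + 3 * c3 * T ^ 2 + 2 * c2 * T + c1) ^ 2 -
      (T ^ 4 + c3 * T ^ 3 + c2 * T ^ 2 + c1 * T + c0) * (12 * T ^ 2 + 6 * c3 * T + 2 * c2) =
      ((T - r2) * (T - r3) * (T - r4)) ^ 2 + ((T - r1) * (T - r3) * (T - r4)) ^ 2 +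
      ((T - r1) * (T - r2) * (T - r4)) ^ 2 + ((T - r1) * (T - r2) * (T - r3)) ^ 2 := by
    rw [k3, k2, k1, k0]
    ring
  have pos : 0 ≤ ((T - r2) * (T - r3) * (T - r4)) ^ 2 + ((T - r1) * (T - r3) * (T - r4)) ^ 2 +
      ((T - r1) * (T - r2) * (T - r4)) ^ 2 + ((T - r1) * (T - r2) * (T - r3)) ^ 2 := by
    positivity
  linarith

/-- If `z * (k + z * ψ z)` is nonnegative for all `z` with `ψ` continuous, then `k = 0`. -/
lemma lin0 (k : ℝ) (ψ : ℝ → ℝ) (hψ : Continuous ψ) (h : ∀ z : ℝ, 0 ≤ z * (k + z * ψ z)) :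
    k = 0 := by
  have hc : Filter.Tendsto (fun z : ℝ => k + z * ψ z) (nhds 0) (nhds k) := by
    have : Continuous fun z : ℝ => k + z * ψ z := by fun_prop
    simpa using this.tendsto 0
  apply le_antisymm
  · have h1 : Filter.Tendsto (fun z : ℝ => k + z * ψ z) (nhdsWithin 0 (Set.Iio 0)) (nhds k) :=
      hc.mono_left nhdsWithin_le_nhds
    refine le_of_tendsto h1 ?_
    filter_upwards [self_mem_nhdsWithin] with z hz
    have hz' : z < 0 := hz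
    by_contra hne
    have := h z
    nlinarith [mul_neg_of_neg_of_pos hz' (not_le.mp hne)]
  · have h1 : Filter.Tendsto (fun z : ℝ => k + z * ψ z) (nhdsWithin 0 (Set.Ioi 0)) (nhds k) :=
      hc.mono_left nhdsWithin_le_nhds
    refine ge_of_tendsto h1 ?_
    filter_upwards [self_mem_nhdsWithin] with z hz
    have hz' : 0 < z := hz
    by_contra hne
    have := h z
    nlinarith [mul_neg_of_pos_of_neg hz' (not_le.mp hne)]

/-- First-order condition at a double root. -/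
lemma node (f1 f2 f3 f4 g1 g2 g3 g4 h0 h1 h2 h3 h4 : ℝ) (hne : h0 ≠ 0)
    (h : ∀ z : ℝ, (z * f1 + z ^ 2 * f2 + z ^ 3 * f3 + z ^ 4 * f4) *
      (h0 + z * h1 + z ^ 2 * h2 + z ^ 3 * h3 + z ^ 4 * h4) ≤
      (z * g1 + z ^ 2 * g2 + z ^ 3 * g3 + z ^ 4 * g4) ^ 2) : f1 = 0 := by
  have hk : -(f1 * h0) = 0 := by
    apply lin0 (-(f1 * h0)) (fun z => (g1 + z * g2 + z ^ 2 * g3 + z ^ 3 * g4) ^ 2 -
      f1 * (h1 + z * h2 + z ^ 2 * h3 + z ^ 3 * h4) -
      (f2 + z * f3 + z ^ 2 * f4) * (h0 + z * h1 + z ^ 2 * h2 + z ^ 3 * h3 + z ^ 4 * h4))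
      (by fun_prop)
    intro z
    have := h z
    have e : z * (-(f1 * h0) + z * ((g1 + z * g2 + z ^ 2 * g3 + z ^ 3 * g4) ^ 2 -
        f1 * (h1 + z * h2 + z ^ 2 * h3 + z ^ 3 * h4) -
        (f2 + z * f3 + z ^ 2 * f4) * (h0 + z * h1 + z ^ 2 * h2 + z ^ 3 * h3 + z ^ 4 * h4))) =
        (z * g1 + z ^ 2 * g2 + z ^ 3 * g3 + z ^ 4 * g4) ^ 2 -
        (z * f1 + z ^ 2 * f2 + z ^ 3 * f3 + z ^ 4 * f4) *
        (h0 + z * h1 + z ^ 2 * h2 + z ^ 3 * h3 + z ^ 4 * h4) := by ring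
    rw [e]
    linarith
  have : f1 * h0 = 0 := by linarith
  rcases mul_eq_zero.mp this with h' | h'
  · exact h'
  · exact absurd h' hne

/-- A cubic that is nonnegative on the whole line has leading coefficient zero. -/
lemma cubic_lead (k3 k2 k1 k0 : ℝ)
    (h : ∀ s : ℝ, 0 ≤ k3 * s ^ 3 + k2 * s ^ 2 + k1 * s + k0) : k3 = 0 := by
  by_contra hne
  have hpos : 0 < |k3| := abs_pos.mpr hne
  set M : ℝ := 1 + (|k2| + |k1| + |k0|) / |k3| with hM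
  have hM1 : 1 ≤ M := by
    rw [hM]
    have : 0 ≤ (|k2| + |k1| + |k0|) / |k3| := by positivity
    linarith
  have hMk : |k3| * M = |k3| + (|k2| + |k1| + |k0|) := by
    rw [hM]; field_simp
  have hM2 : M ≤ M ^ 2 := by nlinarith
  have hM3 : 1 ≤ M ^ 2 := by nlinarith
  have hbig : |k2| * M ^ 2 + |k1| * M + |k0| < |k3| * M ^ 3 := by
    have e : |k3| * M ^ 3 = (|k3| + (|k2| + |k1| + |k0|)) * M ^ 2 := by
      rw [← hMk]; ring
    rw [e]
    have a1 : |k1| * M ≤ |k1| * M ^ 2 := mul_le_mul_of_nonneg_left hM2 (abs_nonneg _)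
    have a0 : |k0| ≤ |k0| * M ^ 2 := by nlinarith [abs_nonneg k0]
    have a3 : 0 < |k3| * M ^ 2 := by positivity
    nlinarith
  have hk2 : k2 ≤ |k2| := le_abs_self _
  have hk1 : k1 ≤ |k1| := le_abs_self _
  have hk1' : -k1 ≤ |k1| := neg_le_abs _
  have hk0 : k0 ≤ |k0| := le_abs_self _
  have b2 : k2 * M ^ 2 ≤ |k2| * M ^ 2 := mul_le_mul_of_nonneg_right hk2 (by positivity)
  have b1 : k1 * M ≤ |k1| * M := mul_le_mul_of_nonneg_right hk1 (by positivity)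
  have b1' : -k1 * M ≤ |k1| * M := mul_le_mul_of_nonneg_right hk1' (by positivity)
  rcases lt_or_gt_of_ne hne with hneg | hgt
  · have := h M
    rw [abs_of_neg hneg] at hbig
    nlinarith
  · have := h (-M)
    rw [abs_of_pos hgt] at hbig
    nlinarith

/-- A quadratic that is nonnegative on the whole line has nonnegative leading coefficient. -/
lemma quad_lead (k2 k1 k0 : ℝ)
    (h : ∀ s : ℝ, 0 ≤ k2 * s ^ 2 + k1 * s + k0) : 0 ≤ k2 := by
  by_contra hne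
  have hneg : k2 < 0 := not_le.mp hne
  set M : ℝ := 1 + (|k1| + |k0|) / (-k2) with hM
  have hpos : 0 < -k2 := by linarith
  have hM1 : 1 ≤ M := by
    rw [hM]
    have : 0 ≤ (|k1| + |k0|) / (-k2) := by positivity
    linarith
  have hMk : (-k2) * M = -k2 + (|k1| + |k0|) := by
    rw [hM, mul_add, mul_one, mul_div_cancel₀ _ hpos.ne']
  have hbig : |k1| * M + |k0| < (-k2) * M ^ 2 := by
    have e : (-k2) * M ^ 2 = (-k2 + (|k1| + |k0|)) * M := by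
      rw [← hMk]; ring
    rw [e]
    have a0 : |k0| ≤ |k0| * M := by nlinarith [abs_nonneg k0]
    nlinarith
  have hk1 : k1 ≤ |k1| := le_abs_self _
  have hk0 : k0 ≤ |k0| := le_abs_self _
  have b1 : k1 * M ≤ |k1| * M := mul_le_mul_of_nonneg_right hk1 (by positivity)
  have := h M
  nlinarith

/-- A real quartic with three distinct real roots has only real roots. -/
lemma real_of_three_roots (c3 c2 c1 c0 r1 r2 r3 : ℝ) (h12 : r1 ≠ r2) (h13 : r1 ≠ r3)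
    (h23 : r2 ≠ r3)
    (h1 : r1 ^ 4 + c3 * r1 ^ 3 + c2 * r1 ^ 2 + c1 * r1 + c0 = 0)
    (h2 : r2 ^ 4 + c3 * r2 ^ 3 + c2 * r2 ^ 2 + c1 * r2 + c0 = 0)
    (h3 : r3 ^ 4 + c3 * r3 ^ 3 + c2 * r3 ^ 2 + c1 * r3 + c0 = 0)
    (t : ℂ) (ht : t ^ 4 + c3 * t ^ 3 + c2 * t ^ 2 + c1 * t + c0 = 0) : t.im = 0 := by
  obtain ⟨s, hs⟩ : ∃ s : ℝ, s = -c3 - r1 - r2 - r3 := ⟨_, rfl⟩
  obtain ⟨α, hα⟩ : ∃ α : ℝ, α = c2 - (r1 * r2 + r1 * r3 + r2 * r3 + s * (r1 + r2 + r3)) :=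
    ⟨_, rfl⟩
  obtain ⟨β, hβ⟩ : ∃ β : ℝ, β = c1 + (r1 * r2 * r3 + s * (r1 * r2 + r1 * r3 + r2 * r3)) :=
    ⟨_, rfl⟩
  obtain ⟨γ, hγ⟩ : ∃ γ : ℝ, γ = c0 - r1 * r2 * r3 * s := ⟨_, rfl⟩
  have hc3 : c3 = -(s + r1 + r2 + r3) := by linarith
  have hc2 : c2 = α + (r1 * r2 + r1 * r3 + r2 * r3 + s * (r1 + r2 + r3)) := by linarith
  have hc1 : c1 = β - (r1 * r2 * r3 + s * (r1 * r2 + r1 * r3 + r2 * r3)) := by linarith
  have hc0 : c0 = γ + r1 * r2 * r3 * s := by linarith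
  rw [hc3, hc2, hc1, hc0] at h1 h2 h3
  have k1 : α * r1 ^ 2 + β * r1 + γ = 0 := by linarith
  have k2 : α * r2 ^ 2 + β * r2 + γ = 0 := by linarith
  have k3 : α * r3 ^ 2 + β * r3 + γ = 0 := by linarith
  have l12 : α * (r1 + r2) + β = 0 := by
    have : (r1 - r2) * (α * (r1 + r2) + β) = 0 := by linarith
    rcases mul_eq_zero.mp this with h | h
    · exact absurd (sub_eq_zero.mp h) h12
    · exact h
  have l13 : α * (r1 + r3) + β = 0 := by
    have : (r1 - r3) * (α * (r1 + r3) + β) = 0 := by linarith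
    rcases mul_eq_zero.mp this with h | h
    · exact absurd (sub_eq_zero.mp h) h13
    · exact h
  have hα0 : α = 0 := by
    have : (r2 - r3) * α = 0 := by linarith
    rcases mul_eq_zero.mp this with h | h
    · exact absurd (sub_eq_zero.mp h) h23
    · exact h
  have hβ0 : β = 0 := by rw [hα0] at l12; linarith
  have hγ0 : γ = 0 := by rw [hα0, hβ0] at k1; linarith
  rw [hα0] at hc2
  rw [hβ0] at hc1
  rw [hγ0] at hc0
  have hprod : (t - r1) * (t - r2) * (t - r3) * (t - s) = 0 := by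
    rw [← ht, hc3, hc2, hc1, hc0]
    push_cast
    ring
  have hre : ∀ r : ℝ, t - r = 0 → t.im = 0 := by
    intro r h
    rw [sub_eq_zero.mp h, Complex.ofReal_im]
  rcases mul_eq_zero.mp hprod with h | h
  · rcases mul_eq_zero.mp h with h | h
    · rcases mul_eq_zero.mp h with h | h
      · exact hre _ h
      · exact hre _ h
    · exact hre _ h
  · exact hre _ h

end Pool.Agent.U234.Amal
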