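import Mathlib
import Pool.Agent.U234.Amal.Alg
import Pool.Agent.U234.Amal.Real

set_option autoImplicit false

/-!
There is no real zero polynomial of degree at most four in `x₁, x₂, y, z` restricting to the two
given polynomials.
-/

namespace Pool.Agent.U234.Amal

open MvPolynomial

/-- The Laguerre inequality on the family, in terms of the coefficients of the unknown part. -/
def Lag (c b0 b1 b2 b3 a00 a01 a02 a03 a11 a12 a13 a22 a23 a33 : ℝ) : Prop :=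
  ∀ x1 x2 y z T : ℝ,
    (T ^ 4 + (-2 * y ^ 2 - x1 ^ 2 - x2 ^ 2 - 9 / 4 * z ^ 2 + c * (y * z)) * T ^ 2 +
        (2 * y * (x1 ^ 2 - x2 ^ 2) + 3 / 4 * z ^ 3 +
          y * z * (b0 * x1 + b1 * x2 + b2 * y + b3 * z)) * T +
        ((y ^ 2 - x1 ^ 2) * (y ^ 2 - x2 ^ 2) + z ^ 2 * (x1 ^ 2 + x2 ^ 2) + z ^ 4 / 4 +
          y * z * (a00 * x1 ^ 2 + a01 * (x1 * x2) + a02 * (x1 * y) + a03 * (x1 * z) +
            a11 * x2 ^ 2 + a12 * (x2 * y) + a13 * (x2 * z) + a22 * y ^ 2 + a23 * (y * z) +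
            a33 * z ^ 2))) *
      (12 * T ^ 2 + 2 * (-2 * y ^ 2 - x1 ^ 2 - x2 ^ 2 - 9 / 4 * z ^ 2 + c * (y * z))) ≤
    (4 * T ^ 3 + 2 * (-2 * y ^ 2 - x1 ^ 2 - x2 ^ 2 - 9 / 4 * z ^ 2 + c * (y * z)) * T +
        (2 * y * (x1 ^ 2 - x2 ^ 2) + 3 / 4 * z ^ 3 +
          y * z * (b0 * x1 + b1 * x2 + b2 * y + b3 * z))) ^ 2

/-- The first-order condition at a point where the restriction to `z = 0` has a double root. -/
lemma lag_node {c b0 b1 b2 b3 a00 a01 a02 a03 a11 a12 a13 a22 a23 a33 : ℝ}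
    (h : Lag c b0 b1 b2 b3 a00 a01 a02 a03 a11 a12 a13 a22 a23 a33) (x1 x2 y T : ℝ)
    (hP : ((T + y) ^ 2 - x1 ^ 2) * ((T - y) ^ 2 - x2 ^ 2) = 0)
    (hP' : 2 * (T + y) * ((T - y) ^ 2 - x2 ^ 2) + 2 * (T - y) * ((T + y) ^ 2 - x1 ^ 2) = 0)
    (hP'' : 2 * ((T - y) ^ 2 - x2 ^ 2) + 8 * ((T + y) * (T - y)) +
      2 * ((T + y) ^ 2 - x1 ^ 2) ≠ 0) :
    y * (c * T ^ 2 + T * (b0 * x1 + b1 * x2 + b2 * y) + (a00 * x1 ^ 2 + a01 * (x1 * x2) +
      a02 * (x1 * y) + a11 * x2 ^ 2 + a12 * (x2 * y) + a22 * y ^ 2)) = 0 := by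
  refine node _ (-(9 / 4 * T ^ 2 - x1 ^ 2 - x2 ^ 2) +
      y * (b3 * T + a03 * x1 + a13 * x2 + a23 * y)) (3 / 4 * T + a33 * y) (1 / 4)
    (y * (2 * c * T + (b0 * x1 + b1 * x2 + b2 * y))) (-(9 / 2) * T + y * b3) (3 / 4) 0
    _ (2 * c * y) (-(9 / 2)) 0 0 hP'' ?_
  intro z
  have h1 := h x1 x2 y z T
  have e0 : (T ^ 4 + (-2 * y ^ 2 - x1 ^ 2 - x2 ^ 2 - 9 / 4 * z ^ 2 + c * (y * z)) * T ^ 2 +
        (2 * y * (x1 ^ 2 - x2 ^ 2) + 3 / 4 * z ^ 3 +
          y * z * (b0 * x1 + b1 * x2 + b2 * y + b3 * z)) * T +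
        ((y ^ 2 - x1 ^ 2) * (y ^ 2 - x2 ^ 2) + z ^ 2 * (x1 ^ 2 + x2 ^ 2) + z ^ 4 / 4 +
          y * z * (a00 * x1 ^ 2 + a01 * (x1 * x2) + a02 * (x1 * y) + a03 * (x1 * z) +
            a11 * x2 ^ 2 + a12 * (x2 * y) + a13 * (x2 * z) + a22 * y ^ 2 + a23 * (y * z) +
            a33 * z ^ 2))) =
      z * (y * (c * T ^ 2 + T * (b0 * x1 + b1 * x2 + b2 * y) + (a00 * x1 ^ 2 + a01 * (x1 * x2) +
      a02 * (x1 * y) + a11 * x2 ^ 2 + a12 * (x2 * y) + a22 * y ^ 2))) +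
      z ^ 2 * (-(9 / 4 * T ^ 2 - x1 ^ 2 - x2 ^ 2) +
      y * (b3 * T + a03 * x1 + a13 * x2 + a23 * y)) + z ^ 3 * (3 / 4 * T + a33 * y) +
      z ^ 4 * (1 / 4) := by
    linear_combination hP
  have e1 : (4 * T ^ 3 + 2 * (-2 * y ^ 2 - x1 ^ 2 - x2 ^ 2 - 9 / 4 * z ^ 2 + c * (y * z)) * T +
        (2 * y * (x1 ^ 2 - x2 ^ 2) + 3 / 4 * z ^ 3 +
          y * z * (b0 * x1 + b1 * x2 + b2 * y + b3 * z))) =
      z * (y * (2 * c * T + (b0 * x1 + b1 * x2 + b2 * y))) +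
      z ^ 2 * (-(9 / 2) * T + y * b3) + z ^ 3 * (3 / 4) + z ^ 4 * 0 := by
    linear_combination hP'
  have e2 : (12 * T ^ 2 + 2 * (-2 * y ^ 2 - x1 ^ 2 - x2 ^ 2 - 9 / 4 * z ^ 2 + c * (y * z))) =
      (2 * ((T - y) ^ 2 - x2 ^ 2) + 8 * ((T + y) * (T - y)) + 2 * ((T + y) ^ 2 - x1 ^ 2)) +
      z * (2 * c * y) + z ^ 2 * (-(9 / 2)) + z ^ 3 * 0 + z ^ 4 * 0 := by
    ring
  rw [e0, e1, e2] at h1
  exact h1

/-- The Laguerre inequalities are contradictory. -/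
lemma not_lag (c b0 b1 b2 b3 a00 a01 a02 a03 a11 a12 a13 a22 a23 a33 : ℝ) :
    ¬ Lag c b0 b1 b2 b3 a00 a01 a02 a03 a11 a12 a13 a22 a23 a33 := by
  intro h
  -- first-order conditions
  have n1 := lag_node h 0 0 1 (-1) (by norm_num) (by norm_num) (by norm_num)
  have n2 := lag_node h 0 1 1 (-1) (by norm_num) (by norm_num) (by norm_num)
  have n3 := lag_node h 0 (-1) 1 (-1) (by norm_num) (by norm_num) (by norm_num)
  have n4 := lag_node h 0 0 1 1 (by norm_num) (by norm_num) (by norm_num)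
  have n5 := lag_node h 1 0 1 1 (by norm_num) (by norm_num) (by norm_num)
  have n6 := lag_node h (-1) 0 1 1 (by norm_num) (by norm_num) (by norm_num)
  have n7 := lag_node h 3 1 1 2 (by norm_num) (by norm_num) (by norm_num)
  have n8 := lag_node h (-3) 1 1 2 (by norm_num) (by norm_num) (by norm_num)
  have n9 := lag_node h 3 (-1) 1 2 (by norm_num) (by norm_num) (by norm_num)
  have n10 := lag_node h (-3) (-1) 1 2 (by norm_num) (by norm_num) (by norm_num)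
  have hc : c = 0 := by linarith
  have hb0 : b0 = 0 := by linarith
  have hb1 : b1 = 0 := by linarith
  have hb2 : b2 = 0 := by linarith
  have ha00 : a00 = 0 := by linarith
  have ha11 : a11 = 0 := by linarith
  have ha22 : a22 = 0 := by linarith
  have ha01 : a01 = 0 := by linarith
  have ha02 : a02 = 0 := by linarith
  have ha12 : a12 = 0 := by linarith
  subst hc hb0 hb1 hb2 ha00 ha11 ha22 ha01 ha02 ha12
  -- second-order conditions
  have m1 := cubic_lead ((-42) + (-48) * a03 + (-24) * a23 + (-24) * b3)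
    ((297 / 8) + (-15) * a03 + (-15 / 2) * a23 + (-33 / 2) * b3 + (1) * b3 ^ 2 + (-24) * a33)
    ((63 / 8) + (-7) * b3 + (-15 / 2) * a33) (31 / 16)
    (fun s => by have := h (2 * s) 0 s 1 (1 + s); linarith)
  have m2 := cubic_lead ((-42) + (48) * a03 + (-24) * a23 + (-24) * b3)
    ((297 / 8) + (15) * a03 + (-15 / 2) * a23 + (-33 / 2) * b3 + (1) * b3 ^ 2 + (-24) * a33)
    ((63 / 8) + (-7) * b3 + (-15 / 2) * a33) (31 / 16)
    (fun s => by have := h (-(2 * s)) 0 s 1 (1 + s); linarith)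
  have m3 := cubic_lead ((-42) + (48) * a13 + (-24) * a23 + (24) * b3)
    ((297 / 8) + (15) * a13 + (-15 / 2) * a23 + (33 / 2) * b3 + (1) * b3 ^ 2 + (24) * a33)
    ((63 / 8) + (7) * b3 + (15 / 2) * a33) (31 / 16)
    (fun s => by have := h 0 (2 * s) (-s) 1 (1 + s); linarith)
  have m4 := cubic_lead ((-42) + (-48) * a13 + (-24) * a23 + (24) * b3)
    ((297 / 8) + (-15) * a13 + (-15 / 2) * a23 + (33 / 2) * b3 + (1) * b3 ^ 2 + (24) * a33)
    ((63 / 8) + (7) * b3 + (15 / 2) * a33) (31 / 16)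
    (fun s => by have := h 0 (-(2 * s)) (-s) 1 (1 + s); linarith)
  have ha03 : a03 = 0 := by linarith
  have ha13 : a13 = 0 := by linarith
  have hb3 : b3 = 0 := by linarith
  have ha23 : a23 = -(7 / 4) := by linarith
  subst ha03 ha13 hb3 ha23
  -- the final contradiction
  have u1 := quad_lead ((-33 / 128) + (-33 / 32) * a33) ((3423 / 2048) + (1311 / 512) * a33)
    ((23569 / 16384) + (-279 / 256) * a33)
    (fun s => by
      have := h ((s - 1 / 16) / 2) 0 ((s + 1 / 16 - 2) / 4) 1 ((s + 33 / 16) / 4)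
      linarith)
  have u2 := quad_lead ((-33 / 128) + (33 / 32) * a33) ((3423 / 2048) + (-1311 / 512) * a33)
    ((23569 / 16384) + (279 / 256) * a33)
    (fun s => by
      have := h 0 ((s - 1 / 16) / 2) (-((s + 1 / 16 - 2) / 4)) 1 ((s + 33 / 16) / 4)
      linarith)
  linarith

/-- The fixed part of a putative amalgam. -/
noncomputable def base : MvPolynomial (Fin 4) ℝ :=
  ((1 + X 2) ^ 2 - X 0 ^ 2) * ((1 - X 2) ^ 2 - X 1 ^ 2) -
    X 3 ^ 2 * (C (9 / 4) - X 0 ^ 2 - X 1 ^ 2) + C (3 / 4) * X 3 ^ 3 + C (1 / 4) * X 3 ^ 4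

lemma totalDegree_base_le : base.totalDegree ≤ 4 := by
  unfold base
  have hX : ∀ i : Fin 4, (X i : MvPolynomial (Fin 4) ℝ).totalDegree = 1 := totalDegree_X
  have hX2 : ∀ (i : Fin 4) (n : ℕ), (X i ^ n : MvPolynomial (Fin 4) ℝ).totalDegree ≤ n :=
    fun i n => by
      have := totalDegree_pow (X i : MvPolynomial (Fin 4) ℝ) n
      rw [hX] at this
      omega
  have h1 : ((1 : MvPolynomial (Fin 4) ℝ) + X 2).totalDegree ≤ 1 :=
    (totalDegree_add _ _).trans (by rw [hX]; simp)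
  have h1' : ((1 : MvPolynomial (Fin 4) ℝ) - X 2).totalDegree ≤ 1 :=
    (totalDegree_sub _ _).trans (by rw [hX]; simp)
  have h2 : (((1 : MvPolynomial (Fin 4) ℝ) + X 2) ^ 2).totalDegree ≤ 2 :=
    (totalDegree_pow _ _).trans (by omega)
  have h2' : (((1 : MvPolynomial (Fin 4) ℝ) - X 2) ^ 2).totalDegree ≤ 2 :=
    (totalDegree_pow _ _).trans (by omega)
  have h3 : (((1 : MvPolynomial (Fin 4) ℝ) + X 2) ^ 2 - X 0 ^ 2).totalDegree ≤ 2 :=
    (totalDegree_sub _ _).trans (max_le h2 (hX2 _ _))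
  have h3' : (((1 : MvPolynomial (Fin 4) ℝ) - X 2) ^ 2 - X 1 ^ 2).totalDegree ≤ 2 :=
    (totalDegree_sub _ _).trans (max_le h2' (hX2 _ _))
  have h4 := (totalDegree_mul (((1 : MvPolynomial (Fin 4) ℝ) + X 2) ^ 2 - X 0 ^ 2)
    (((1 : MvPolynomial (Fin 4) ℝ) - X 2) ^ 2 - X 1 ^ 2))
  have h5 : ((C (9 / 4) : MvPolynomial (Fin 4) ℝ) - X 0 ^ 2).totalDegree ≤ 2 :=
    (totalDegree_sub _ _).trans (max_le (by rw [totalDegree_C]; omega) (hX2 _ _))
  have h6 : ((C (9 / 4) : MvPolynomial (Fin 4) ℝ) - X 0 ^ 2 - X 1 ^ 2).totalDegree ≤ 2 :=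
    (totalDegree_sub _ _).trans (max_le h5 (hX2 _ _))
  have h7 := (totalDegree_mul (X 3 ^ 2 : MvPolynomial (Fin 4) ℝ)
    ((C (9 / 4) : MvPolynomial (Fin 4) ℝ) - X 0 ^ 2 - X 1 ^ 2))
  have h8 := totalDegree_mul (C (3 / 4) : MvPolynomial (Fin 4) ℝ) (X 3 ^ 3)
  have h9 := totalDegree_mul (C (1 / 4) : MvPolynomial (Fin 4) ℝ) (X 3 ^ 4)
  rw [totalDegree_C] at h8 h9
  have i1 := hX2 3 2
  have i2 := hX2 3 3
  have i3 := hX2 3 4
  refine (totalDegree_add _ _).trans (max_le ?_ (by omega))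
  refine (totalDegree_add _ _).trans (max_le ?_ (by omega))
  exact (totalDegree_sub _ _).trans (max_le (by omega) (by omega))

/-- The main obstruction. -/
theorem no_amalgam (r : MvPolynomial (Fin 4) ℝ)
    (hr : ∀ (a : Fin 4 → ℝ) (t : ℂ), aeval (fun i => t * (a i : ℂ)) r = 0 → t.im = 0)
    (hdeg : r.totalDegree ≤ 4)
    (hy : ∀ x : Fin 4 → ℝ, x 3 = 0 → eval x r =
      ((1 + x 2) ^ 2 - x 0 ^ 2) * ((1 - x 2) ^ 2 - x 1 ^ 2))
    (hz : ∀ x : Fin 4 → ℝ, x 2 = 0 → eval x r =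
      (1 - x 0 ^ 2 - x 3 ^ 2) * (1 - x 1 ^ 2 - x 3 ^ 2) -
        1 / 4 * (x 3 ^ 2 * (1 - 3 * x 3 + 3 * x 3 ^ 2))) : False := by
  have hbase : ∀ x : Fin 4 → ℝ, eval x base =
      ((1 + x 2) ^ 2 - x 0 ^ 2) * ((1 - x 2) ^ 2 - x 1 ^ 2) -
      x 3 ^ 2 * (9 / 4 - x 0 ^ 2 - x 1 ^ 2) + 3 / 4 * x 3 ^ 3 + 1 / 4 * x 3 ^ 4 := by
    intro x
    unfold base
    simp only [map_add, map_sub, map_mul, map_pow, map_one, eval_C, eval_X]
  have hD3 : ∀ x : Fin 4 → ℝ, x 3 = 0 → eval x (r - base) = 0 := by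
    intro x hx
    rw [map_sub, hy x hx, hbase, hx]
    ring
  have hD2 : ∀ x : Fin 4 → ℝ, x 2 = 0 → eval x (r - base) = 0 := by
    intro x hx
    rw [map_sub, hz x hx, hbase, hx]
    ring
  obtain ⟨D1, hD1⟩ := X_dvd_of_vanish (r - base) 2 hD2
  have h3dvd := X_dvd_of_vanish (r - base) 3 hD3
  rw [hD1] at h3dvd
  have h3D1 : X 3 ∣ D1 := by
    rcases (X_prime (R := ℝ) (i := (3 : Fin 4))).dvd_or_dvd h3dvd with h | h
    · exfalso
      have := (X_dvd_X (R := ℝ) (i := (3 : Fin 4)) (j := 2)).mp h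
      revert this
      decide
    · exact h
  obtain ⟨g, hg⟩ := h3D1
  have hfac : r - base = X 2 * (X 3 * g) := by rw [hD1, hg]
  have hgdeg : g.totalDegree ≤ 2 := by
    by_cases hg0 : g = 0
    · rw [hg0]; simp
    · have hdD : (r - base).totalDegree ≤ 4 :=
        (totalDegree_sub _ _).trans (max_le hdeg totalDegree_base_le)
      rw [hfac, totalDegree_mul_of_isDomain (X_ne_zero _) (mul_ne_zero (X_ne_zero _) hg0),
        totalDegree_mul_of_isDomain (X_ne_zero _) hg0, totalDegree_X, totalDegree_X] at hdD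
      omega
  obtain ⟨c, b0, b1, b2, b3, a00, a01, a02, a03, a11, a12, a13, a22, a23, a33, hgg⟩ :=
    explicit_form g hgdeg
  have hrr : r = base + X 2 * (X 3 * g) := by rw [← hfac]; ring
  apply not_lag c b0 b1 b2 b3 a00 a01 a02 a03 a11 a12 a13 a22 a23 a33
  intro x1 x2 y z T
  have key := laguerre4 0 (-2 * y ^ 2 - x1 ^ 2 - x2 ^ 2 - 9 / 4 * z ^ 2 + c * (y * z))
    (2 * y * (x1 ^ 2 - x2 ^ 2) + 3 / 4 * z ^ 3 +
          y * z * (b0 * x1 + b1 * x2 + b2 * y + b3 * z))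
    ((y ^ 2 - x1 ^ 2) * (y ^ 2 - x2 ^ 2) + z ^ 2 * (x1 ^ 2 + x2 ^ 2) + z ^ 4 / 4 +
          y * z * (a00 * x1 ^ 2 + a01 * (x1 * x2) + a02 * (x1 * y) + a03 * (x1 * z) +
            a11 * x2 ^ 2 + a12 * (x2 * y) + a13 * (x2 * z) + a22 * y ^ 2 + a23 * (y * z) +
            a33 * z ^ 2)) ?_ T
  · linarith
  · intro t ht
    by_cases ht0 : t = 0
    · rw [ht0]; simp
    · have hinv : (t⁻¹).im = 0 := by
        apply hr ![x1, x2, y, z] t⁻¹
        have ht4 : t ^ 4 ≠ 0 := pow_ne_zero _ ht0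
        apply (mul_eq_zero.mp (?_ : t ^ 4 * _ = 0)).resolve_left ht4
        rw [hrr, hgg, base, ← ht]
        simp only [map_add, map_sub, map_mul, map_pow, map_one, aeval_X, aeval_C,
          Complex.coe_algebraMap, Matrix.cons_val_zero, Matrix.cons_val_one, Matrix.cons_val]
        push_cast
        field_simp
        ring
      have him : t.im = 0 := by
        rw [Complex.inv_im] at hinv
        have hns : Complex.normSq t ≠ 0 := by
          rwa [Ne, Complex.normSq_eq_zero]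
        rw [div_eq_zero_iff] at hinv
        rcases hinv with h | h
        · linarith
        · exact absurd h hns
      exact him

end Pool.Agent.U234.Amal
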